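import Pool.Agent.Lib.MP_b60c25_lc.FullB

/-!
A lower bound for `D(n)` for composite `n`, close to `n` for infinitely many `n`:
`D(r M) ≥ (r - 1)(M - 1) + 2` for all `r ≥ 5` and `M ≥ 2`.
-/

namespace Pool.Agent.Results.MP_b60c25_lc.AlmostFull

open Pool.Agent.Lib.MP_b60c25_lc

/-- `D(r M) ≥ (r - 1)(M - 1) + 2` for all `r ≥ 5` and all `M ≥ 2`. -/
theorem result : ∀ r M : ℕ, 5 ≤ r → 2 ≤ M → (r - 1) * (M - 1) + 2 ≤ D (r * M) := by
  intro r M hr hM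
  obtain ⟨e, rfl⟩ : ∃ e, M = e + 1 := ⟨M - 1, by omega⟩
  have h := full (e := e) (r := r) (by omega) hr
  rw [Nat.add_sub_cancel, Nat.mul_comm r (e + 1)]
  exact h

end Pool.Agent.Results.MP_b60c25_lc.AlmostFull
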