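import Pool.Agent.Lib.MP_b60c25_lc.Small

/-!
`D(8) ≥ 8`: some non-surjective 8-state range-2 cellular automaton has no diamond of length less
than 8.
-/

namespace Pool.Agent.Results.MP_b60c25_lc.EightStates

open Pool.Agent.Lib.MP_b60c25_lc

/-- `D(8) ≥ 8`. -/
theorem result : 8 ≤ D 8 := eight

end Pool.Agent.Results.MP_b60c25_lc.EightStates
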