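import Pool.Agent.Lib.MP_b60c25_lc.Four

/-!
`D(4) = 5`: among the non-surjective 4-state range-2 cellular automata the longest shortest
diamond has length 5.  In particular `D(4) ≠ 4 - 1`, so the conjecture `D(n) = n - 1` is false.
-/

namespace Pool.Agent.Results.MP_b60c25_lc.FourStateDiamond

open Pool.Agent.Lib.MP_b60c25_lc

/-- The local rule: rows `0 0 1 2`, `3 3 2 1`, `1 3 2 0`, `2 1 0 3`. -/
def f4 : Fin 4 → Fin 4 → Fin 4 :=
  ![![0, 0, 1, 2], ![3, 3, 2, 1], ![1, 3, 2, 0], ![2, 1, 0, 3]]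

/-- The level of an (unordered) pair. -/
def h4 : Fin 4 → Fin 4 → ℕ :=
  ![![0, 1, 3, 4], ![1, 0, 5, 3], ![3, 5, 0, 2], ![4, 3, 2, 0]]

theorem f4_hasDiamond : HasDiamond f4 5 := by
  refine ⟨by norm_num, 0, 1, [0, 2, 1, 0, 1], [1, 3, 3, 3, 2], rfl, rfl, by decide, ?_⟩
  decide +kernel

theorem f4_delta : delta f4 = 5 := by
  apply le_antisymm (delta_le_five f4)
  apply le_csInf ⟨5, f4_hasDiamond⟩
  intro l hl
  exact le_of_potential 5 h4 (by decide +kernel) (by decide +kernel) (by decide +kernel) hl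

theorem f4_not_surjective : ¬ Function.Surjective (globalMap f4) := by
  intro hs
  obtain ⟨c, hc⟩ := hs (fun p : ℤ => if p = 0 then 2 else if p = 1 then 3 else if p = 2 then 0
    else if p = 3 then 1 else 3)
  have key : ∀ c0 c1 c2 c3 c4 c5 : Fin 4,
      ¬ (f4 c0 c1 = 2 ∧ f4 c1 c2 = 3 ∧ f4 c2 c3 = 0 ∧ f4 c3 c4 = 1 ∧ f4 c4 c5 = 3) := by
    decide +kernel
  apply key (c 0) (c 1) (c 2) (c 3) (c 4) (c 5)
  refine ⟨?_, ?_, ?_, ?_, ?_⟩
  · have := congrFun hc 0
    simpa [globalMap] using this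
  · have := congrFun hc 1
    simpa [globalMap] using this
  · have := congrFun hc 2
    simpa [globalMap] using this
  · have := congrFun hc 3
    simpa [globalMap] using this
  · have := congrFun hc 4
    simpa [globalMap] using this

/-- The value `D(4) = 5`; in particular the conjecture `D(n) = n - 1` fails at `n = 4`. -/
theorem result : D 4 = 5 ∧ ¬ ∀ n : ℕ, 2 ≤ n → D n = n - 1 := by
  have h : D 4 = 5 := by
    apply le_antisymm
    · unfold D
      refine csSup_le ⟨5, ⟨f4, f4_not_surjective, f4_delta⟩⟩ ?_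
      rintro k ⟨f, _, rfl⟩
      exact delta_le_five f
    · have := le_D f4 f4_not_surjective
      rwa [f4_delta] at this
  refine ⟨h, fun H => ?_⟩
  have := H 4 (by norm_num)
  rw [h] at this
  omega

end Pool.Agent.Results.MP_b60c25_lc.FourStateDiamond
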