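import Pool.Agent.Lib.MP_b60c25_lc.Small

/-!
A lower bound for `D(n)` for all even `n`: `D(n) ≥ n / 2 + 3` for every even `n ≥ 4`.
-/

namespace Pool.Agent.Results.MP_b60c25_lc.LinearLowerBound

open Pool.Agent.Lib.MP_b60c25_lc

/-- `D(2m) ≥ m + 3` for all `m ≥ 2`. -/
theorem result : ∀ m : ℕ, 2 ≤ m → m + 3 ≤ D (2 * m) := fun _ hm => linear_all hm

end Pool.Agent.Results.MP_b60c25_lc.LinearLowerBound
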